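import Pool.Agent.X190.JBMult

/-! The Jordan product of the multiplier algebra is jointly J-strict continuous on bounded sets. -/

set_option autoImplicit false

namespace Pool.Agent.Results.MP_2cba5e_an.JointlyContinuous

open Filter Topology Pool.Agent.X190.JB

universe u v

theorem aux {W : Type u} [NormedAddCommGroup W] [NormedSpace ℂ W]
    {J : JBStarAlg W} {A : Submodule ℂ W} {ι : Type v} {l : Filter ι}
    {x : ι → Mult J A} {x₀ : Mult J A} {C : ℝ} (hC : ∀ i, ‖(x i : W)‖ ≤ C)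
    (hx : ∀ a ∈ A, Tendsto (fun i => J.mul a (x i)) l (𝓝 (J.mul a x₀)))
    {u : ι → W} {d : W} (hd : d ∈ A) (hu : Tendsto u l (𝓝 d)) :
    Tendsto (fun i => J.mul (x i) (u i)) l (𝓝 (J.mul x₀ d)) := by
  have e : (fun i => J.mul (x i) (u i)) = fun i => J.mul d (x i) + J.mul (x i) (u i - d) := by
    funext i
    rw [J.mul_sub, J.mul_comm d (x i)]
    abel
  rw [e, J.mul_comm x₀ d]
  have h0 : Tendsto (fun i => J.mul (x i) (u i - d)) l (𝓝 0) := by
    have h1 : Tendsto (fun i => C * ‖u i - d‖) l (𝓝 0) := by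
      have h2 : Tendsto (fun i => ‖u i - d‖) l (𝓝 0) := tendsto_iff_norm_sub_tendsto_zero.1 hu
      simpa using h2.const_mul C
    refine squeeze_zero_norm (fun i => ?_) h1
    exact (J.norm_mul_le _ _).trans (mul_le_mul_of_nonneg_right (hC i) (norm_nonneg _))
  simpa using (hx d hd).add h0

/-- Let `W` be a JB*-algebra (for the question: the bidual of `𝔄`) with product `J.mul`, and `A` a
norm closed *-subalgebra (for the question: `𝔄`). Then the multipliers
`Mult J A = {x ∈ W : x ∘ A ⊆ A}` are closed under the product, and whenever `x` and `y` are norm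
bounded families of multipliers converging J-strictly to `x₀` along the filter `l` and to `y₀` along
the filter `l'`, then `x i ∘ y j` converges J-strictly to `x₀ ∘ y₀` along the product filter. -/
theorem result (W : Type u) [NormedAddCommGroup W] [NormedSpace ℂ W] [CompleteSpace W]
    (J : JBStarAlg W) (A : Submodule ℂ W) (hA : IsJBSub J A) :
    ∃ hM : ∀ x y : Mult J A, J.mul x y ∈ Mult J A,
      ∀ (ι κ : Type v) (l : Filter ι) (l' : Filter κ)
        (x : ι → Mult J A) (y : κ → Mult J A) (x₀ y₀ : Mult J A) (C D : ℝ),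
        (∀ i, ‖(x i : W)‖ ≤ C) → (∀ j, ‖(y j : W)‖ ≤ D) →
        Tendsto x l (@nhds _ (jstrict J A) x₀) → Tendsto y l' (@nhds _ (jstrict J A) y₀) →
        Tendsto (fun p : ι × κ => (⟨J.mul (x p.1) (y p.2), hM _ _⟩ : Mult J A)) (l ×ˢ l')
          (@nhds _ (jstrict J A) ⟨J.mul x₀ y₀, hM _ _⟩) := by
  refine ⟨mult_mul hA, ?_⟩
  intro ι κ l l' x y x₀ y₀ C D hC hD hx hy
  rw [tendsto_jstrict] at hx hy
  rw [tendsto_jstrict]
  have hle : Submodule.span ℂ {z | ∃ u ∈ A, ∃ v ∈ A, z = J.mul u v} ≤ A := by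
    rw [Submodule.span_le]
    rintro _ ⟨a, ha, b, hb, rfl⟩
    exact hA.mul_mem a ha b hb
  have hX : ∀ a ∈ A, Tendsto (fun p : ι × κ => J.mul a (x p.1)) (l ×ˢ l') (𝓝 (J.mul a x₀)) :=
    fun a ha => (hx a ha).comp tendsto_fst
  have hY : ∀ a ∈ A, Tendsto (fun p : ι × κ => J.mul a (y p.2)) (l ×ˢ l') (𝓝 (J.mul a y₀)) :=
    fun a ha => (hy a ha).comp tendsto_snd
  have hx' : ∀ z : Mult J A, ∀ a ∈ A, J.mul a z ∈ A := fun z a ha => by
    rw [J.mul_comm]; exact z.2 a ha
  intro c hc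
  have hc' := span_products hA hc
  show Tendsto (fun p : ι × κ => J.mul c (J.mul (x p.1) (y p.2))) (l ×ˢ l')
    (𝓝 (J.mul c (J.mul x₀ y₀)))
  induction hc' using Submodule.span_induction with
  | mem z hz =>
    obtain ⟨a, ha, b, hb, rfl⟩ := hz
    have e : (fun p : ι × κ => J.mul (J.mul a b) (J.mul (x p.1) (y p.2))) = fun p : ι × κ =>
        J.L a (J.mul (x p.1) (J.mul b (y p.2))) + J.L b (J.mul (x p.1) (J.mul a (y p.2)))
          + J.mul (y p.2) (J.mul (J.mul a b) (x p.1))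
          - J.mul (J.mul b (y p.2)) (J.mul a (x p.1))
          - J.mul (J.mul a (y p.2)) (J.mul b (x p.1)) := by
      funext p
      rw [J.key, J.mul_comm (y p.2 : W) (J.mul (J.mul a b) (x p.1))]
      rfl
    rw [e, J.key, J.mul_comm (J.mul (J.mul a b) x₀) y₀]
    have t1 : Tendsto (fun p : ι × κ => J.L a (J.mul (x p.1) (J.mul b (y p.2)))) (l ×ˢ l')
        (𝓝 (J.L a (J.mul x₀ (J.mul b y₀)))) :=
      ((J.L a).continuous.tendsto _).comp
        (aux (fun p : ι × κ => hC p.1) hX (hx' y₀ b hb) (hY b hb))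
    have t2 : Tendsto (fun p : ι × κ => J.L b (J.mul (x p.1) (J.mul a (y p.2)))) (l ×ˢ l')
        (𝓝 (J.L b (J.mul x₀ (J.mul a y₀)))) :=
      ((J.L b).continuous.tendsto _).comp
        (aux (fun p : ι × κ => hC p.1) hX (hx' y₀ a ha) (hY a ha))
    have t3 : Tendsto (fun p : ι × κ => J.mul (y p.2) (J.mul (J.mul a b) (x p.1))) (l ×ˢ l')
        (𝓝 (J.mul y₀ (J.mul (J.mul a b) x₀))) :=
      aux (fun p : ι × κ => hD p.2) hY (hx' x₀ _ (hA.mul_mem a ha b hb))
        (hX _ (hA.mul_mem a ha b hb))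
    have t4 : Tendsto (fun p : ι × κ => J.mul (J.mul b (y p.2)) (J.mul a (x p.1))) (l ×ˢ l')
        (𝓝 (J.mul (J.mul b y₀) (J.mul a x₀))) :=
      (J.continuous_mul.tendsto _).comp ((hY b hb).prodMk_nhds (hX a ha))
    have t5 : Tendsto (fun p : ι × κ => J.mul (J.mul a (y p.2)) (J.mul b (x p.1))) (l ×ˢ l')
        (𝓝 (J.mul (J.mul a y₀) (J.mul b x₀))) :=
      (J.continuous_mul.tendsto _).comp ((hY a ha).prodMk_nhds (hX b hb))
    exact (((t1.add t2).add t3).sub t4).sub t5
  | zero =>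
    simp only [J.zero_mul]
    exact tendsto_const_nhds
  | add u v hu hv ihu ihv =>
    simp only [J.add_mul]
    exact (ihu (hle hu)).add (ihv (hle hv))
  | smul r u hu ihu =>
    simp only [J.smul_mul]
    exact (ihu (hle hu)).const_smul r

end Pool.Agent.Results.MP_2cba5e_an.JointlyContinuous
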